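import Mathlib
import Pool.Agent.TH170.GS.Defs

/-!
# Weil numbers with given slope types: definitions
-/

set_option autoImplicit false

namespace Pool.Agent.TH170.FT

open NumberField IntermediateField

/-- The numbers `π i` are Weil numbers for `p ^ a` that generate the CM fields `K i`. The slope of `π i`
at the complex embedding `φ` of `K i` is `(a + κ M) / 2` if `φ` belongs to the type `Φ i`, and
`(a - κ M) / 2` otherwise, for the weight `M = M i φ` and a real number `κ ≠ 0` which depends only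
on `i`. -/
structure IsOfType {p : ℕ} [Fact p.Prime] (ν : PadicAlgCl p ≃+* ℂ) (a : ℕ) {I : Type}
    (K : I → Type) [∀ i, Field (K i)] [∀ i, NumberField (K i)] [∀ i, IsCMField (K i)]
    (M : ∀ i, (K i →+* ℂ) → ℤ) (Φ : ∀ i, Set (K i →+* ℂ)) (π : ∀ i, K i) : Prop where
  gen : ∀ i, ℚ⟮π i⟯ = ⊤
  weil : ∀ i, π i * IsCMField.complexConj (K i) (π i) = (p : K i) ^ a
  slopes : ∀ i, ∃ κ : ℝ, κ ≠ 0 ∧ GS.HasSlopes ν (M i) (Φ i) a κ (π i)

end Pool.Agent.TH170.FT
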