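import Mathlib
import Pool.Agent.H204R3.GP.Defs
import Pool.Agent.H204R3.GP.MTDefs
import Pool.Agent.TH170.FT.Defs

/-!
# The data of an abelian variety over a number field
-/

set_option autoImplicit false

namespace Pool.Agent.TH170.FT

open NumberField Pool.Agent.H204R3.GP

/-- The data of an abelian variety `A` over a number field (or a finitely generated field) and of a
prime number `ℓ`: `per` is the inclusion of `W = H_1(A, ℚ)` in the tangent space `T` at the origin,
`ω₀` the form on `W` given by a polarization, `comp` the comparison map from `W` to the rational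
Tate module `V`, `ρ` the action of the Galois group on `V`, `χ` the cyclotomic character, and `ω` the
Weil pairing. The last two properties are theorems of Faltings. -/
structure IsRealization {ℓ : ℕ} [Fact ℓ.Prime] {W T V Γ : Type} [AddCommGroup W] [Module ℚ W]
    [AddCommGroup T] [Module ℂ T] [AddCommGroup V] [Module ℚ_[ℓ] V] [Group Γ]
    (per : W →+ T) (ω₀ : W →ₗ[ℚ] W →ₗ[ℚ] ℚ) (comp : W →+ V) (ρ : Representation ℚ_[ℓ] Γ V)
    (χ : Γ →* ℚ_[ℓ]) (ω : V →ₗ[ℚ_[ℓ]] V →ₗ[ℚ_[ℓ]] ℚ_[ℓ]) : Prop where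
  hodge : IsHodgeBilinear per ω₀
  alternating : ∀ v, ω v v = 0
  nondegenerate : ∀ u, (∀ v, ω v u = 0) → u = 0
  equivariant : ∀ s u v, ω (ρ s u) (ρ s v) = χ s * ω u v
  compatible : ∀ x y, ω (comp x) (comp y) = ((ω₀ x y : ℚ) : ℚ_[ℓ])
  semisimple : FiniteIndexSemisimple ρ
  faltings : FaltingsEnd per comp ρ

/-- Some element `γ` of the Galois group is a Frobenius element: the value of the cyclotomic character
at `γ` is `p ^ a`, and the characteristic polynomial of `ρ γ` is the product of the minimal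
polynomials of the Weil numbers `π i`. -/
def HasFrobenius {ℓ : ℕ} [Fact ℓ.Prime] {V Γ : Type} [AddCommGroup V] [Module ℚ_[ℓ] V]
    [FiniteDimensional ℚ_[ℓ] V]
    [Group Γ] (ρ : Representation ℚ_[ℓ] Γ V) (χ : Γ →* ℚ_[ℓ]) (p a : ℕ) {I : Type} [Fintype I]
    {K : I → Type} [∀ i, Field (K i)] [∀ i, NumberField (K i)] (π : ∀ i, K i) : Prop :=
  ∃ γ : Γ, χ γ = (p : ℚ_[ℓ]) ^ a ∧
    (ρ γ).charpoly = ∏ i, (minpoly ℚ (π i)).map (algebraMap ℚ ℚ_[ℓ])

end Pool.Agent.TH170.FT
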