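import Mathlib
import Pool.Agent.TH170.FT.Defs
import Pool.Agent.TH170.GS.Rel
import Pool.Agent.TH170.GS.RhoEq
import Pool.Agent.H204R3.GP.Neat

/-!
# Weil numbers with nondegenerate slope types have no relations
-/

set_option autoImplicit false

namespace Pool.Agent.TH170.FT

open NumberField Finset Module Pool.Agent.H204R3.CM Pool.Agent.H977R3.CM Pool.Agent.TH170.CM
  Pool.Agent.TH170.MF Pool.Agent.TH170.FW Pool.Agent.H204R3.GP Pool.Agent.TH170.GS

variable {p : ℕ} [Fact p.Prime] {ν : PadicAlgCl p ≃+* ℂ} {a : ℕ} {I : Type} [Fintype I]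
  {K : I → Type} [∀ i, Field (K i)] [∀ i, NumberField (K i)] [∀ i, IsCMField (K i)]

theorem neat_of_types (hind : PairwiseIndep K) {M : ∀ i, (K i →+* ℂ) → ℤ}
    (hM : ∀ i φ, M i (ComplexEmbedding.conjugate φ) = M i φ)
    {Φ : ∀ i, Set (K i →+* ℂ)} (hΦ : ∀ i, IsCMType (Φ i)) (hnd : ∀ i, Φ i ∉ degTypes (M i))
    {π : ∀ i, K i} (hπ : IsOfType ν a K M Φ π) {L : Type} [Field L] [NumberField L]
    [IsGalois ℚ L] (j : L →+* ℂ) (hj : ∀ i, ∀ ψ : K i →+* ℂ, ∃ φ : K i →+* L, j.comp φ = ψ) :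
    Neat p a π L := by
  classical
  intro m r hr J hrel y
  choose κ hκ hsl using hπ.slopes
  let ε : ∀ i, (K i →+* ℂ) → ℝ := fun i φ => ((CM.sgn (Φ i) φ * M i φ : ℤ) : ℝ)
  have hεc : ∀ i φ, ε i (ComplexEmbedding.conjugate φ) = - ε i φ := by
    intro i φ
    simp only [ε]
    rw [hM, (oddSign_sgn (hΦ i)).2]
    push_cast
    ring
  have hp1 : (1 : ℝ) < p := by exact_mod_cast (Fact.out : p.Prime).one_lt
  have hNp : ‖(p : PadicAlgCl p)‖ = (p : ℝ)⁻¹ := by
    have h2 : (p : PadicAlgCl p) = ((p : ℚ_[p]) : PadicAlgCl p) := by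
      rw [map_natCast]
    rw [h2, PadicAlgCl.norm_extends, Padic.norm_p]
  have hπ0 : ∀ i, π i ≠ 0 := by
    intro i h0
    have h1 := hπ.weil i
    rw [h0, zero_mul] at h1
    exact pow_ne_zero a (Nat.cast_ne_zero.2 (Fact.out : p.Prime).ne_zero) h1.symm
  let N : (Σ i, (K i →+* L)) → ℤ := fun y => ((Finset.univ.filter (fun l => J l = y)).card : ℤ)
  let u : (ℂ ≃+* ℂ) → (Σ i, (K i →+* L)) → ℝ := fun σ y =>
    κ y.1 * ε y.1 ((σ : ℂ →+* ℂ).comp (j.comp y.2))
  have hu : ∀ σ y, u σ (bar y) = - u σ y := by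
    rintro σ ⟨i, φ⟩
    have h1 : (σ : ℂ →+* ℂ).comp (j.comp (cbar φ)) =
        ComplexEmbedding.conjugate ((σ : ℂ →+* ℂ).comp (j.comp φ)) :=
      comp_cbar ((σ : ℂ →+* ℂ).comp j) φ
    change κ i * ε i ((σ : ℂ →+* ℂ).comp (j.comp (cbar φ))) =
      -(κ i * ε i ((σ : ℂ →+* ℂ).comp (j.comp φ)))
    rw [h1, hεc]
    ring
  -- the relation between the slopes
  have hsum : ∀ σ : ℂ ≃+* ℂ, ∑ l, u σ (J l) = 0 := by
    intro σ
    have h1 := congrArg (fun z => ‖ν.symm (σ (j z))‖) hrel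
    simp only [map_pow, map_prod, map_natCast, norm_pow, norm_prod] at h1
    rw [hNp] at h1
    have hN0 : ∀ l, ‖ν.symm (σ (j (val π (J l))))‖ ≠ 0 := by
      intro l h
      rw [norm_eq_zero, map_eq_zero, map_eq_zero, map_eq_zero] at h
      exact hπ0 _ ((map_eq_zero (J l).2).1 h)
    have h2 := congrArg (Real.logb p) h1
    rw [Real.logb_prod _ _ (fun l _ => pow_ne_zero _ (hN0 l)), Real.logb_pow,
      Real.logb_pow, Real.logb_inv, Real.logb_self_eq_one hp1] at h2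
    simp only [Real.logb_pow] at h2
    have h3 : ∀ l, u σ (J l) = 2 * (- Real.logb p ‖ν.symm (σ (j (val π (J l))))‖) - a := by
      intro l
      have h4 := hsl (J l).1 ((σ : ℂ →+* ℂ).comp (j.comp (J l).2))
      have h5 : ((σ : ℂ →+* ℂ).comp (j.comp (J l).2)) (π (J l).1) = σ (j (val π (J l))) := rfl
      rw [h5] at h4
      rw [h4]
      simp only [u, ε, CM.sgn]
      split_ifs
      · push_cast
        ring
      · push_cast
        ring
    rw [sum_congr rfl fun l _ => h3 l, sum_sub_distrib, ← mul_sum, sum_neg_distrib, sum_const,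
      card_univ, Fintype.card_prod, Fintype.card_fin, Fintype.card_fin, nsmul_eq_mul]
    rw [← mul_sum] at h2
    have hr' : (r : ℝ) ≠ 0 := Nat.cast_ne_zero.2 hr.ne'
    have h6 : ∑ l, Real.logb p ‖ν.symm (σ (j (val π (J l))))‖ = - (m * a) := by
      apply mul_left_cancel₀ hr'
      rw [h2]
      push_cast
      ring
    rw [h6]
    push_cast
    ring
  have hrel2 : ∀ σ : ℂ ≃+* ℂ, ∑ y, ((N y - N (bar y) : ℤ) : ℝ) * u σ y = 0 := by
    intro σ
    have h2 : ∑ y, (N y : ℝ) * u σ y = 0 := by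
      have h3 : ∀ y, (N y : ℝ) * u σ y = ∑ l, if J l = y then u σ y else 0 := by
        intro y
        rw [← Finset.sum_filter, Finset.sum_const, nsmul_eq_mul]
        simp only [N]
        push_cast
        rfl
      rw [Finset.sum_congr rfl (fun y _ => h3 y), Finset.sum_comm]
      have h4 : ∀ l, ∑ y, (if J l = y then u σ y else 0) = u σ (J l) := by
        intro l
        rw [Finset.sum_ite_eq Finset.univ (J l), if_pos (Finset.mem_univ _)]
      rw [Finset.sum_congr rfl (fun l _ => h4 l)]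
      exact hsum σ
    have h3 : ∑ y, (N (bar y) : ℝ) * u σ y = 0 := by
      have h4 : ∑ y, (N (bar y) : ℝ) * u σ y = ∑ y, -((N y : ℝ) * u σ y) := by
        refine Finset.sum_nbij' bar bar (fun _ _ => Finset.mem_univ _)
          (fun _ _ => Finset.mem_univ _) (fun y _ => bar_bar y) (fun y _ => bar_bar y)
          (fun y _ => ?_)
        rw [hu]
        ring
      rw [h4, Finset.sum_neg_distrib, h2, neg_zero]
    simp only [Int.cast_sub, sub_mul, Finset.sum_sub_distrib, h2, h3, sub_zero]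
  -- the antisymmetric exponents
  let c : ∀ i, (K i →+* ℂ) → ℝ := fun i φ => κ i *
    ((N ⟨i, (toC j (hj i)).symm φ⟩ - N (bar ⟨i, (toC j (hj i)).symm φ⟩) : ℤ) : ℝ)
  have h0 := trivial_real hind hM hΦ hnd c (fun i φ => ?_) (fun σ => ?_) y.1
    (toC j (hj y.1) y.2)
  · simp only [c, Equiv.symm_apply_apply] at h0
    have h1 := (mul_eq_zero.1 h0).resolve_left (hκ y.1)
    have h2 : N y - N (bar y) = 0 := by exact_mod_cast h1
    exact Int.ofNat.inj (sub_eq_zero.1 h2)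
  · have h1 : (⟨i, (toC j (hj i)).symm (ComplexEmbedding.conjugate φ)⟩ : Σ i, (K i →+* L)) =
        bar ⟨i, (toC j (hj i)).symm φ⟩ := by
      rw [symm_conj]
      rfl
    simp only [c]
    rw [h1, bar_bar]
    push_cast
    ring
  · rw [← hrel2 σ, Fintype.sum_sigma]
    refine sum_congr rfl fun i _ => ?_
    refine (Fintype.sum_equiv (toC j (hj i)) _ _ fun ψ => ?_).symm
    simp only [c, u, ε, Equiv.symm_apply_apply]
    change _ = κ i * _ * ((CM.sgn (Φ i) ((σ : ℂ →+* ℂ).comp (j.comp ψ)) *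
      M i ((σ : ℂ →+* ℂ).comp (j.comp ψ)) : ℤ) : ℝ)
    ring

/-- A property that holds for all families of types that are not degenerate holds for almost all
families of types. -/
theorem ncard_le (K : I → Type) [∀ i, Field (K i)] [∀ i, NumberField (K i)]
    [∀ i, IsCMField (K i)] (M : ∀ i, (K i →+* ℂ) → ℤ) (n g : I → ℕ) (φ₀ : ∀ i, K i →+* ℂ)
    (hM : ∀ i φ, M i (ComplexEmbedding.conjugate φ) = M i φ)
    (hn : ∀ i, n i ≠ 0) (hMn : ∀ i φ, M i φ ∣ (n i : ℤ)) (hg : ∀ i, finrank ℚ (K i) = 2 * g i)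
    (P : (∀ i, Set (K i →+* ℂ)) → Prop)
    (hP : ∀ Φ : ∀ i, Set (K i →+* ℂ), (∀ i, IsCMType (Φ i)) → (∀ i, Φ i ∉ degTypes (M i)) → P Φ) :
    (({Φ : ∀ i, Set (K i →+* ℂ) | (∀ i, IsCMType (Φ i)) ∧ ¬ P Φ}.ncard : ℕ) : ℝ) ≤
      2 ^ (∑ i, g i) * ∑ i, GS.rho (n i) (g i) (φ₀ i) :=
  ncard_families_gen K hg (fun i => degTypes (M i)) (fun i => FW.rho (n i) (g i) (φ₀ i))
    (fun i Φ hΦ => hΦ.1) (fun i => ncard_degTypes_le (hn i) (hMn i) (hM i) (hg i) (φ₀ i)) P hP

end Pool.Agent.TH170.FT
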