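import Mathlib
import Pool.Agent.TH170.FT.MTDefs
import Pool.Agent.TH170.FT.Neat
import Pool.Agent.H204R3.GP.MT
import Pool.Agent.H204R3.GP.Neat

/-!
# The Mumford-Tate conjecture from one Frobenius element with nondegenerate slope types
-/

set_option autoImplicit false

namespace Pool.Agent.TH170.FT

open NumberField Module Pool.Agent.H204R3.GP Pool.Agent.H204R3.CM Pool.Agent.H977R3.CM
  Pool.Agent.TH170.MF Pool.Agent.TH170.FW

variable {p : ℕ} [Fact p.Prime] {ν : PadicAlgCl p ≃+* ℂ} {a : ℕ} {I : Type} [Fintype I]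
  {K : I → Type} [∀ i, Field (K i)] [∀ i, NumberField (K i)] [∀ i, IsCMField (K i)]

theorem mumfordTate (ha : 0 < a) {π : ∀ i, K i} (hgen : ∀ i, IntermediateField.adjoin ℚ {π i} = ⊤)
    (hweil : ∀ i, π i * IsCMField.complexConj (K i) (π i) = (p : K i) ^ a)
    {L : Type} [Field L] [NumberField L] [IsGalois ℚ L] (j : L →+* ℂ)
    (h : ∀ i, ∀ ψ : K i →+* ℂ, ∃ φ : K i →+* L, j.comp φ = ψ) (hneat : Neat p a π L)
    {ℓ : ℕ} [Fact ℓ.Prime] {W T V Γ : Type} [AddCommGroup W] [Module ℚ W]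
    [AddCommGroup T] [Module ℂ T] [AddCommGroup V] [Module ℚ_[ℓ] V] [FiniteDimensional ℚ_[ℓ] V]
    [Group Γ] {per : W →+ T} {ω₀ : W →ₗ[ℚ] W →ₗ[ℚ] ℚ} {comp : W →+ V}
    {ρ : Representation ℚ_[ℓ] Γ V} {χ : Γ →* ℚ_[ℓ]} {ω : V →ₗ[ℚ_[ℓ]] V →ₗ[ℚ_[ℓ]] ℚ_[ℓ]}
    (hR : IsRealization per ω₀ comp ρ χ ω) (hF : HasFrobenius ρ χ p a π) :
    MumfordTateStrong per comp ρ χ := by
  obtain ⟨γ, hχ, hγ⟩ := hF
  have hss' : ∀ Δ : Subgroup Γ, Δ.FiniteIndex → SemiUnder (ρ '' (Δ : Set Γ)) := by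
    intro Δ hΔ U hU
    obtain ⟨U', h1, h2⟩ := hR.semisimple Δ hΔ U (fun s hs u hu => hU _ ⟨s, hs, rfl⟩ u hu)
    refine ⟨U', ?_, h2⟩
    rintro _ ⟨s, hs, rfl⟩ u hu
    exact h1 s hs u hu
  have hanti : ∀ u v, ω u v = - ω v u := by
    intro u v
    have h1 := hR.alternating (u + v)
    simp only [map_add, LinearMap.add_apply, hR.alternating, zero_add, add_zero] at h1
    linear_combination h1
  have hnd' : ∀ u, (∀ v, ω u v = 0) → u = 0 := by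
    intro u hu
    apply hR.nondegenerate
    intro v
    rw [hanti, hu, neg_zero]
  have hnd : ∀ u, (∀ v, ω v u = 0) → u = 0 := hR.nondegenerate
  exact mumfordTate_of per comp ρ χ ω hnd' hR.equivariant ω₀ hR.hodge hR.compatible hR.faltings
    fun m φ hφ => tate_of_neat ha hgen hweil j h hneat ρ χ ω hR.alternating hnd
      hR.equivariant hss' γ hχ hγ φ hφ

theorem mumfordTate_of_types (hind : PairwiseIndep K) {M : ∀ i, (K i →+* ℂ) → ℤ}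
    (hM : ∀ i φ, M i (ComplexEmbedding.conjugate φ) = M i φ)
    {Φ : ∀ i, Set (K i →+* ℂ)} (hΦ : ∀ i, IsCMType (Φ i)) (hnd : ∀ i, Φ i ∉ degTypes (M i))
    (ha : 0 < a) {π : ∀ i, K i} (hπ : IsOfType ν a K M Φ π)
    {ℓ : ℕ} [Fact ℓ.Prime] {W T V Γ : Type} [AddCommGroup W] [Module ℚ W]
    [AddCommGroup T] [Module ℂ T] [AddCommGroup V] [Module ℚ_[ℓ] V] [FiniteDimensional ℚ_[ℓ] V]
    [Group Γ] {per : W →+ T} {ω₀ : W →ₗ[ℚ] W →ₗ[ℚ] ℚ} {comp : W →+ V}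
    {ρ : Representation ℚ_[ℓ] Γ V} {χ : Γ →* ℚ_[ℓ]} {ω : V →ₗ[ℚ_[ℓ]] V →ₗ[ℚ_[ℓ]] ℚ_[ℓ]}
    (hR : IsRealization per ω₀ comp ρ χ ω) (hF : HasFrobenius ρ χ p a π) :
    MumfordTateStrong per comp ρ χ := by
  obtain ⟨L, hL1, hL2, j, h⟩ := Pool.Agent.H204R3.CM.exists_galois K
  exact mumfordTate ha hπ.gen hπ.weil j h (neat_of_types hind hM hΦ hnd hπ j h) hR hF

end Pool.Agent.TH170.FT
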