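import Mathlib
import Pool.Agent.H204R3.GP.Defs
import Pool.Agent.TH170.FT.MTDefs

/-!
# Classes of algebraic cycles on the powers of an abelian variety over a number field
-/

set_option autoImplicit false

namespace Pool.Agent.TH170.FT

open Pool.Agent.H204R3.GP

/-- `V` is the rational Tate module of an abelian variety `A` over a number field, `ρ` the action of the
Galois group, `χ` the cyclotomic character and `ω` the Weil pairing of a polarization. The last
property is a theorem of Faltings. -/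
structure IsTateModule {ℓ : ℕ} [Fact ℓ.Prime] {V Γ : Type} [AddCommGroup V] [Module ℚ_[ℓ] V]
    [Group Γ] (ρ : Representation ℚ_[ℓ] Γ V) (χ : Γ →* ℚ_[ℓ])
    (ω : V →ₗ[ℚ_[ℓ]] V →ₗ[ℚ_[ℓ]] ℚ_[ℓ]) : Prop where
  alternating : ∀ v, ω v v = 0
  nondegenerate : ∀ u, (∀ v, ω v u = 0) → u = 0
  equivariant : ∀ s u v, ω (ρ s u) (ρ s v) = χ s * ω u v
  semisimple : FiniteIndexSemisimple ρ

/-- The alternating forms on `V ^ n` are the cohomology classes of `A ^ n`. `C n m` is the set of the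
classes of the algebraic cycles of codimension `m` on `A ^ n` and `D n` the set of the classes of
divisors, up to nonzero rational factors. The properties that are used: a Tate class of degree two is a
combination of classes of divisors (Faltings), and intersections of divisors are algebraic cycles. -/
structure IsCycleClasses {ℓ : ℕ} [Fact ℓ.Prime] {V Γ : Type} [AddCommGroup V] [Module ℚ_[ℓ] V]
    [Group Γ] (ρ : Representation ℚ_[ℓ] Γ V) (χ : Γ →* ℚ_[ℓ])
    (D : ∀ n : ℕ, Set ((Fin n → V) [⋀^Fin 2]→ₗ[ℚ_[ℓ]] ℚ_[ℓ]))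
    (C : ∀ n m : ℕ, Set ((Fin n → V) [⋀^Fin m × Fin 2]→ₗ[ℚ_[ℓ]] ℚ_[ℓ])) : Prop where
  faltings : ∀ (n : ℕ) (B : (Fin n → V) [⋀^Fin 2]→ₗ[ℚ_[ℓ]] ℚ_[ℓ]), IsTateClass ρ χ 1 B →
    B ∈ Submodule.span ℚ_[ℓ] (D n)
  intersection : ∀ (n m : ℕ) (B : Fin m → (Fin n → V) [⋀^Fin 2]→ₗ[ℚ_[ℓ]] ℚ_[ℓ])
    (g : (Fin n → V) [⋀^Fin m × Fin 2]→ₗ[ℚ_[ℓ]] ℚ_[ℓ]), (∀ l, B l ∈ D n) → IsWedge B g →
    g ∈ C n m

end Pool.Agent.TH170.FT
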