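import Mathlib
import Pool.Agent.TH170.FT.TateDefs
import Pool.Agent.TH170.FT.Neat
import Pool.Agent.H204R3.GP.MT
import Pool.Agent.H204R3.GP.DescentG
import Pool.Agent.H204R3.GP.Neat

/-!
# The Tate conjecture from one Frobenius element with nondegenerate slope types
-/

set_option autoImplicit false

namespace Pool.Agent.TH170.FT

open NumberField Module Pool.Agent.H204R3.GP Pool.Agent.H204R3.CM Pool.Agent.H977R3.CM
  Pool.Agent.TH170.MF Pool.Agent.TH170.FW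

section Wedge

variable {k W : Type} [Field k] [CharZero k] [AddCommGroup W] [Module k W]

/-- The bilinear form given by an alternating form. -/
noncomputable def toBil : (W [⋀^Fin 2]→ₗ[k] k) →ₗ[k] (W →ₗ[k] W →ₗ[k] k) where
  toFun B := LinearMap.mk₂ k (fun x y => B ![x, y])
    (fun x x' y => by
      have h := B.map_update_add ![x, y] 0 x x'
      simpa [Function.update, Matrix.cons_val_zero] using by
        have e : ∀ z : W, Function.update ![x, y] 0 z = ![z, y] := by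
          intro z; ext i; fin_cases i <;> rfl
        rw [e, e, e] at h
        exact h)
    (fun c x y => by
      have h := B.map_update_smul ![x, y] 0 c x
      have e : ∀ z : W, Function.update ![x, y] 0 z = ![z, y] := by
        intro z; ext i; fin_cases i <;> rfl
      rw [e, e] at h
      exact h)
    (fun x y y' => by
      have h := B.map_update_add ![x, y] 1 y y'
      have e : ∀ z : W, Function.update ![x, y] 1 z = ![x, z] := by
        intro z; ext i; fin_cases i <;> rfl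
      rw [e, e, e] at h
      exact h)
    (fun c x y => by
      have h := B.map_update_smul ![x, y] 1 c y
      have e : ∀ z : W, Function.update ![x, y] 1 z = ![x, z] := by
        intro z; ext i; fin_cases i <;> rfl
      rw [e, e] at h
      exact h)
  map_add' B B' := by
    ext x y
    rfl
  map_smul' c B := by
    ext x y
    rfl

theorem toBil_apply (B : W [⋀^Fin 2]→ₗ[k] k) (x y : W) : toBil B x y = B ![x, y] := rfl

/-- The alternatization as a linear map. -/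
noncomputable def altL {κ : Type} [Fintype κ] [DecidableEq κ] :
    MultilinearMap k (fun _ : κ => W) k →ₗ[k] W [⋀^κ]→ₗ[k] k where
  toFun φ := MultilinearMap.alternatization φ
  map_add' φ ψ := map_add _ φ ψ
  map_smul' c φ := by
    ext v
    simp only [MultilinearMap.alternatization_apply, RingHom.id_apply, AlternatingMap.smul_apply,
      Finset.smul_sum]
    refine Finset.sum_congr rfl fun σ _ => ?_
    change _ • (c • φ fun i => v (σ i)) = c • (_ • φ fun i => v (σ i))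
    rw [smul_comm]

theorem isWedge_altL {m : ℕ} (B : Fin m → W [⋀^Fin 2]→ₗ[k] k) :
    IsWedge B (altL (mmG 1 fun l => toBil (B l))) := by
  intro v
  change MultilinearMap.alternatization _ v = _
  rw [MultilinearMap.alternatization_apply]
  refine Finset.sum_congr rfl fun σ _ => ?_
  rw [Units.smul_def, zsmul_eq_mul]
  rfl

theorem wedge_mem [FiniteDimensional k W] {m : ℕ} {D : Set (W [⋀^Fin 2]→ₗ[k] k)} {C : Set (W [⋀^Fin m × Fin 2]→ₗ[k] k)}
    (hC : ∀ (B : Fin m → W [⋀^Fin 2]→ₗ[k] k) (g), (∀ l, B l ∈ D) → IsWedge B g → g ∈ C)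
    {B : Fin m → W [⋀^Fin 2]→ₗ[k] k} (hB : ∀ l, B l ∈ Submodule.span k D)
    {g : W [⋀^Fin m × Fin 2]→ₗ[k] k} (hg : IsWedge B g) : g ∈ Submodule.span k C := by
  have h1 : g = altL (mmG 1 fun l => toBil (B l)) := by
    ext v
    rw [hg v, isWedge_altL B v]
  have h2 := mmG_mem_span (1 : Equiv.Perm (Fin m × Fin 2)) (toBil '' D)
    (fun l => toBil (B l)) (fun l => by
      rw [← Submodule.map_span]
      exact Submodule.mem_map_of_mem (hB l))
  rw [h1]
  have h3 := Submodule.mem_map_of_mem (f := altL) h2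
  rw [Submodule.map_span] at h3
  refine Submodule.span_mono ?_ h3
  rintro _ ⟨_, ⟨b, hb, rfl⟩, rfl⟩
  choose B' hB' hb' using hb
  have h4 : b = fun l => toBil (B' l) := funext fun l => (hb' l).symm
  rw [h4]
  exact hC B' _ hB' (isWedge_altL B')

end Wedge

variable {p : ℕ} [Fact p.Prime] {ν : PadicAlgCl p ≃+* ℂ} {a : ℕ} {I : Type} [Fintype I]
  {K : I → Type} [∀ i, Field (K i)] [∀ i, NumberField (K i)] [∀ i, IsCMField (K i)]

theorem generated (ha : 0 < a) {π : ∀ i, K i} (hgen : ∀ i, IntermediateField.adjoin ℚ {π i} = ⊤)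
    (hweil : ∀ i, π i * IsCMField.complexConj (K i) (π i) = (p : K i) ^ a)
    {L : Type} [Field L] [NumberField L] [IsGalois ℚ L] (j : L →+* ℂ)
    (h : ∀ i, ∀ ψ : K i →+* ℂ, ∃ φ : K i →+* L, j.comp φ = ψ) (hneat : Neat p a π L)
    {ℓ : ℕ} [Fact ℓ.Prime] {V Γ : Type} [AddCommGroup V] [Module ℚ_[ℓ] V]
    [FiniteDimensional ℚ_[ℓ] V] [Group Γ]
    {ρ : Representation ℚ_[ℓ] Γ V} {χ : Γ →* ℚ_[ℓ]} {ω : V →ₗ[ℚ_[ℓ]] V →ₗ[ℚ_[ℓ]] ℚ_[ℓ]}
    (hR : IsTateModule ρ χ ω) (hF : HasFrobenius ρ χ p a π) :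
    TateGeneratedInDegreeTwo ρ χ := by
  obtain ⟨γ, hχ, hγ⟩ := hF
  have hss' : ∀ Δ : Subgroup Γ, Δ.FiniteIndex → SemiUnder (ρ '' (Δ : Set Γ)) := by
    intro Δ hΔ U hU
    obtain ⟨U', h1, h2⟩ := hR.semisimple Δ hΔ U (fun s hs u hu => hU _ ⟨s, hs, rfl⟩ u hu)
    refine ⟨U', ?_, h2⟩
    rintro _ ⟨s, hs, rfl⟩ u hu
    exact h1 s hs u hu
  intro n m f hf
  obtain ⟨Δ, hΔ, hf⟩ := hf
  have h1 := altG_of_tate_mem ρ χ (n := n) (m := m) (fun φ hφ => tate_of_neat ha hgen hweil j h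
    hneat ρ χ ω hR.alternating hR.nondegenerate hR.equivariant hss' γ hχ hγ φ hφ) f Δ hΔ hf
  refine Submodule.span_mono ?_ h1
  rintro g ⟨B, hB, hg⟩
  refine ⟨B, fun l => ?_, hg⟩
  obtain ⟨Δ', hΔ', h2⟩ := hB l
  refine ⟨Δ', hΔ', fun s hs v => ?_⟩
  rw [pow_one]
  exact h2 s hs v

theorem tate_of_types (hind : PairwiseIndep K) {M : ∀ i, (K i →+* ℂ) → ℤ}
    (hM : ∀ i φ, M i (ComplexEmbedding.conjugate φ) = M i φ)
    {Φ : ∀ i, Set (K i →+* ℂ)} (hΦ : ∀ i, IsCMType (Φ i)) (hnd : ∀ i, Φ i ∉ degTypes (M i))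
    (ha : 0 < a) {π : ∀ i, K i} (hπ : IsOfType ν a K M Φ π)
    {ℓ : ℕ} [Fact ℓ.Prime] {V Γ : Type} [AddCommGroup V] [Module ℚ_[ℓ] V]
    [FiniteDimensional ℚ_[ℓ] V] [Group Γ]
    {ρ : Representation ℚ_[ℓ] Γ V} {χ : Γ →* ℚ_[ℓ]} {ω : V →ₗ[ℚ_[ℓ]] V →ₗ[ℚ_[ℓ]] ℚ_[ℓ]}
    {D : ∀ n : ℕ, Set ((Fin n → V) [⋀^Fin 2]→ₗ[ℚ_[ℓ]] ℚ_[ℓ])}
    {C : ∀ n m : ℕ, Set ((Fin n → V) [⋀^Fin m × Fin 2]→ₗ[ℚ_[ℓ]] ℚ_[ℓ])}
    (hR : IsTateModule ρ χ ω) (hC : IsCycleClasses ρ χ D C) (hF : HasFrobenius ρ χ p a π)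
    (n m : ℕ) (f : (Fin n → V) [⋀^Fin m × Fin 2]→ₗ[ℚ_[ℓ]] ℚ_[ℓ]) (hf : IsTateClass ρ χ m f) :
    f ∈ Submodule.span ℚ_[ℓ] (C n m) := by
  obtain ⟨L, hL1, hL2, j, h⟩ := Pool.Agent.H204R3.CM.exists_galois K
  have h1 := generated ha hπ.gen hπ.weil j h (neat_of_types hind hM hΦ hnd hπ j h) hR hF n m f hf
  refine Submodule.span_le.2 ?_ h1
  rintro g ⟨B, hB, hg⟩
  exact wedge_mem (fun B g => hC.intersection n m B g) (fun l => hC.faltings n (B l) (hB l)) hg

end Pool.Agent.TH170.FT
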