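import Mathlib
import Pool.Agent.H204R3.GP.MTDefs
import Pool.Agent.TH170.FT.MTDefs

/-!
# The system of the `ℓ`-adic Galois representations of an abelian variety
-/

set_option autoImplicit false

namespace Pool.Agent.TH170.FT

open TensorProduct Pool.Agent.H204R3.GP

variable {W T : Type} [AddCommGroup W] [Module ℚ W] [AddCommGroup T] [Module ℂ T]

/-- The inclusion of `W = H_1(A, ℚ)` in the rational Tate module `V_ℓ = ℚ_ℓ ⊗ W`. -/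
noncomputable def incl (W : Type) [AddCommGroup W] [Module ℚ W] (ℓ : ℕ) [Fact ℓ.Prime] :
    W →+ ℚ_[ℓ] ⊗[ℚ] W :=
  (TensorProduct.mk ℚ ℚ_[ℓ] W 1).toAddMonoidHom

/-- The `ℓ`-adic representation of an abelian variety `A` over a number field with
`W = H_1(A, ℚ)`, inclusion `per` of `W` in the tangent space and polarization form `ω₀`: the action
`ρ` of the Galois group `Γ` on the rational Tate module `ℚ_ℓ ⊗ W`, the cyclotomic character `χ`, the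
Weil pairing `ω`, the known properties in `IsRealization` (with the theorems of Faltings), and the
theorem of Deligne: the extensions of Hodge classes to `ℚ_ℓ ⊗ W` are Tate classes. -/
structure GaloisData (per : W →+ T) (ω₀ : W →ₗ[ℚ] W →ₗ[ℚ] ℚ) (Γ : Type) [Group Γ] (ℓ : ℕ)
    [Fact ℓ.Prime] where
  ρ : Representation ℚ_[ℓ] Γ (ℚ_[ℓ] ⊗[ℚ] W)
  χ : Γ →* ℚ_[ℓ]
  ω : ℚ_[ℓ] ⊗[ℚ] W →ₗ[ℚ_[ℓ]] ℚ_[ℓ] ⊗[ℚ] W →ₗ[ℚ_[ℓ]] ℚ_[ℓ]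
  realization : IsRealization per ω₀ (incl W ℓ) ρ χ ω
  deligne : ∀ (m : ℕ) (ψ : MultilinearMap ℚ (fun _ : Fin m × Fin 2 => W) ℚ)
    (φ : MultilinearMap ℚ_[ℓ] (fun _ : Fin m × Fin 2 => ℚ_[ℓ] ⊗[ℚ] W) ℚ_[ℓ]),
    IsHodgeTensor per ψ → Compares (incl W ℓ) φ ψ → IsTateTensor ρ χ m φ

variable {per : W →+ T} {ω₀ : W →ₗ[ℚ] W →ₗ[ℚ] ℚ} {Γ : Type} [Group Γ]

/-- The rational form `ψ` is a Tate class for all prime numbers `ℓ ≥ ℓ₀`. -/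
def IsCommonTate (D : ∀ (ℓ : ℕ) [Fact ℓ.Prime], GaloisData per ω₀ Γ ℓ) (ℓ₀ : ℕ) {m : ℕ}
    (ψ : MultilinearMap ℚ (fun _ : Fin m × Fin 2 => W) ℚ) : Prop :=
  ∀ (ℓ : ℕ) [Fact ℓ.Prime], ℓ₀ ≤ ℓ →
    ∀ φ : MultilinearMap ℚ_[ℓ] (fun _ : Fin m × Fin 2 => ℚ_[ℓ] ⊗[ℚ] W) ℚ_[ℓ],
      Compares (incl W ℓ) φ ψ → IsTateTensor (D ℓ).ρ (D ℓ).χ m φ

/-- For all prime numbers `ℓ ≥ ℓ₀` all Tate classes, of all degrees, are linear combinations of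
rational forms which are Tate classes for all `ℓ ≥ ℓ₀` and products of Hodge classes of degree two.
So the connected `ℓ`-adic monodromy groups come from one group over `ℚ`, the Lefschetz group. -/
def HasCommonForm (D : ∀ (ℓ : ℕ) [Fact ℓ.Prime], GaloisData per ω₀ Γ ℓ) (ℓ₀ : ℕ) : Prop :=
  ∀ (ℓ : ℕ) [Fact ℓ.Prime], ℓ₀ ≤ ℓ → ∀ (m : ℕ)
    (φ : MultilinearMap ℚ_[ℓ] (fun _ : Fin m × Fin 2 => ℚ_[ℓ] ⊗[ℚ] W) ℚ_[ℓ]),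
    IsTateTensor (D ℓ).ρ (D ℓ).χ m φ → φ ∈ Submodule.span ℚ_[ℓ]
      {φ' : MultilinearMap ℚ_[ℓ] (fun _ : Fin m × Fin 2 => ℚ_[ℓ] ⊗[ℚ] W) ℚ_[ℓ] |
        ∃ ψ : MultilinearMap ℚ (fun _ : Fin m × Fin 2 => W) ℚ, IsCommonTate D ℓ₀ ψ ∧
          IsProductOfHodgeBilinear per ψ ∧ Compares (incl W ℓ) φ' ψ}

/-- The theorem of Deligne for all prime numbers: Hodge classes are Tate classes for all `ℓ`. -/
theorem isCommonTate_of_hodge (D : ∀ (ℓ : ℕ) [Fact ℓ.Prime], GaloisData per ω₀ Γ ℓ) (ℓ₀ : ℕ)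
    {m : ℕ} {ψ : MultilinearMap ℚ (fun _ : Fin m × Fin 2 => W) ℚ} (h : IsHodgeTensor per ψ) :
    IsCommonTate D ℓ₀ ψ :=
  fun ℓ _ _ φ hφ => (D ℓ).deligne m ψ φ h hφ

theorem hasCommonForm_of (D : ∀ (ℓ : ℕ) [Fact ℓ.Prime], GaloisData per ω₀ Γ ℓ) (ℓ₀ : ℕ)
    (h : ∀ (ℓ : ℕ) [Fact ℓ.Prime], ℓ₀ ≤ ℓ → MumfordTateStrong per (incl W ℓ) (D ℓ).ρ (D ℓ).χ) :
    HasCommonForm D ℓ₀ := by
  intro ℓ _ hℓ m φ hφ
  refine Submodule.span_mono ?_ (h ℓ hℓ m φ hφ)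
  rintro φ' ⟨ψ, h1, h2, h3⟩
  exact ⟨ψ, isCommonTate_of_hodge D ℓ₀ h1, h2, h3⟩

end Pool.Agent.TH170.FT
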